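import Mathlib

/-! De Morgan formulas and the shape of their layers. -/

namespace Pool.Agent.H676

/-- De Morgan formulas in `n` variables: literals (`lit i b` is true if `x i = b`) and gates with
two inputs (`gate true`: AND, `gate false`: OR). -/
inductive Fm (n : ℕ) : Type
  | lit (i : Fin n) (b : Bool) : Fm n
  | gate (ty : Bool) (a b : Fm n) : Fm n

namespace Fm

/-- The value of a formula. -/
def eval {n : ℕ} (x : Fin n → Bool) : Fm n → Bool
  | lit i b => decide (x i = b)
  | gate ty a b => if ty then (eval x a && eval x b) else (eval x a || eval x b)

/-- The depth of a formula: the number of gates on a longest path. -/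
def depth {n : ℕ} : Fm n → ℕ
  | lit _ _ => 0
  | gate _ a b => max (depth a) (depth b) + 1

end Fm

/-- At most `ℓ` layers of gates (gates of the type `t` only if `ty = some t`, arbitrary gates if
`ty = none`) on top of formulas with the property `P`. -/
def Layers {n : ℕ} (ty : Option Bool) (P : Fm n → Prop) : ℕ → Fm n → Prop
  | 0, F => P F
  | ℓ + 1, F => P F ∨ ∃ t a b, F = Fm.gate t a b ∧ (ty = none ∨ ty = some t) ∧
      Layers ty P ℓ a ∧ Layers ty P ℓ b

/-- `Fits σ F`: reading from the output to the inputs, the layers of `F` are divided as in the
list `σ`; an entry `(false, ℓ)` stands for at most `ℓ` free layers, an entry `(true, ℓ)` for at most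
`ℓ` homogeneous layers: every connected piece of `F` in these layers has only AND gates or only
OR gates. Below the last layer there are literals. -/
def Fits {n : ℕ} : List (Bool × ℕ) → Fm n → Prop
  | [], F => ∃ i b, F = Fm.lit i b
  | (false, ℓ) :: σ, F => Layers none (Fits σ) ℓ F
  | (true, ℓ) :: σ, F => ∃ t, Layers (some t) (Fits σ) ℓ F

/-- The number of layers in the blocks of kind `h` (`h = true`: homogeneous, `h = false`: free). -/
def lay (h : Bool) (σ : List (Bool × ℕ)) : ℕ := ((σ.filter (fun e => e.1 == h)).map Prod.snd).sum

/-- The number of blocks of kind `h`. -/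
def blk (h : Bool) (σ : List (Bool × ℕ)) : ℕ := (σ.filter (fun e => e.1 == h)).length

/-- The parity of the number of true inputs. -/
def par {n : ℕ} (x : Fin n → Bool) : Bool :=
  decide (Odd (Finset.univ.filter (fun i => x i = true)).card)

end Pool.Agent.H676
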