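import Mathlib
import Pool.Agent.H676.DT
import Pool.Agent.H676.Fm

/-! Random restrictions of formulas with homogeneous and free layers. -/

namespace Pool.Agent.H676

open Finset H568R2

set_option linter.unusedSectionVars false

lemma Adv.mono {I : Type*} [Fintype I] [DecidableEq I] {K s s' : ℕ} {f : (I → Bool) → Bool}
    (h : Adv K s f) (hs : s ≤ s') : Adv K s' f := by
  obtain ⟨E, _, lab, u, v, hd, h1, h2, h3⟩ := h
  exact ⟨E, inferInstance, lab, u, v, hd, h1, h2, fun y hy => (h3 y hy).trans (by exact_mod_cast hs)⟩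

variable {n : ℕ}

/-- value of a formula as a function -/
def ef (F : Fm n) : (Fin n → Bool) → Bool := fun x => F.eval x

lemma rs_and (F G : Fm n) (ρ : Restr (Fin n)) :
    rs (ef (Fm.gate true F G)) ρ = fun x => rs (ef F) ρ x && rs (ef G) ρ x := rfl

lemma rs_or (F G : Fm n) (ρ : Restr (Fin n)) :
    rs (ef (Fm.gate false F G)) ρ = fun x => rs (ef F) ρ x || rs (ef G) ρ x := rfl

lemma layers_list {ty : Option Bool} {P : Fm n → Prop} (K : ℕ) :
    ∀ (ℓ : ℕ) (F : Fm n), Layers ty P ℓ F → ∃ 𝓛 : List (Fm n), 𝓛.length ≤ 2 ^ ℓ ∧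
      (∀ G ∈ 𝓛, P G) ∧ ∀ ρ : Restr (Fin n), (∀ G ∈ 𝓛, DTr K (rs (ef G) ρ)) →
        Adv K (2 ^ ℓ) (rs (ef F) ρ) ∧ ∀ t, ty = some t → Cert K (!t) (rs (ef F) ρ) := by
  intro ℓ
  induction ℓ with
  | zero =>
    intro F hF
    refine ⟨[F], by simp, by simpa using (show P F from hF), fun ρ hρ => ?_⟩
    have h := hρ F (by simp)
    refine ⟨?_, fun t _ => h.cert _⟩
    rw [pow_zero]
    exact Adv.leaf h.deg
  | succ ℓ ih =>
    intro F hF
    rcases hF with hF | ⟨t, a, b, rfl, hty, ha, hb⟩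
    · refine ⟨[F], by simp [Nat.one_le_two_pow], by simpa using hF, fun ρ hρ => ?_⟩
      have h := hρ F (by simp)
      exact ⟨(Adv.leaf h.deg).mono Nat.one_le_two_pow, fun t _ => h.cert _⟩
    · obtain ⟨𝓛, hl, hP, hA⟩ := ih a ha
      obtain ⟨𝓛', hl', hP', hA'⟩ := ih b hb
      refine ⟨𝓛 ++ 𝓛', ?_, ?_, fun ρ hρ => ?_⟩
      · rw [List.length_append, pow_succ]; omega
      · intro G hG
        rcases List.mem_append.1 hG with h | h
        · exact hP G h
        · exact hP' G h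
      · obtain ⟨h1, h2⟩ := hA ρ (fun G hG => hρ G (List.mem_append.2 (Or.inl hG)))
        obtain ⟨h1', h2'⟩ := hA' ρ (fun G hG => hρ G (List.mem_append.2 (Or.inr hG)))
        have hpw : 2 ^ (ℓ + 1) = 2 ^ ℓ + 2 ^ ℓ := by rw [pow_succ]; ring
        constructor
        · rw [hpw]
          cases t
          · rw [rs_or]
            exact Adv.or Nat.one_le_two_pow Nat.one_le_two_pow h1 h1'
          · rw [rs_and]
            exact h1.and h1'
        · intro s hs
          have hst : s = t := by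
            rcases hty with h | h
            · rw [h] at hs; cases hs
            · rw [h] at hs; exact (Option.some.inj hs).symm
          subst hst
          have c1 := h2 s hs
          have c2 := h2' s hs
          intro x hx
          cases s
          · rw [rs_or] at hx ⊢
            simp only [Bool.not_false, Bool.or_eq_true] at hx ⊢
            rcases hx with hx | hx
            · obtain ⟨A, hA1, hA2⟩ := c1 x hx
              exact ⟨A, hA1, fun y hy => Or.inl (hA2 y hy)⟩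
            · obtain ⟨A, hA1, hA2⟩ := c2 x hx
              exact ⟨A, hA1, fun y hy => Or.inr (hA2 y hy)⟩
          · rw [rs_and] at hx ⊢
            simp only [Bool.not_true, Bool.and_eq_false_iff] at hx ⊢
            rcases hx with hx | hx
            · obtain ⟨A, hA1, hA2⟩ := c1 x hx
              exact ⟨A, hA1, fun y hy => Or.inl (hA2 y hy)⟩
            · obtain ⟨A, hA1, hA2⟩ := c2 x hx
              exact ⟨A, hA1, fun y hy => Or.inr (hA2 y hy)⟩

open Classical in
/-- indicator -/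
noncomputable def ind (p : Prop) : ℝ := if p then 1 else 0

lemma ind_nonneg (p : Prop) : 0 ≤ ind p := by unfold ind; split_ifs <;> norm_num
lemma ind_le_one (p : Prop) : ind p ≤ 1 := by unfold ind; split_ifs <;> norm_num
lemma ind_mono {p q : Prop} (h : p → q) : ind p ≤ ind q := by
  unfold ind
  split_ifs with h1 h2
  · exact le_refl _
  · exact absurd (h h1) h2
  · norm_num
  · exact le_refl _

lemma ind_true {p : Prop} (h : p) : ind p = 1 := if_pos h
lemma ind_false {p : Prop} (h : ¬ p) : ind p = 0 := if_neg h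

section
variable {I : Type*} [Fintype I] [DecidableEq I]

lemma union_list {α : Type*} {q : ℝ} (h0 : 0 ≤ q) (h1 : q ≤ 1) (P : α → Restr I → Prop)
    {e : ℝ} (𝓛 : List α) (h : ∀ a ∈ 𝓛, Ex (wq q) (fun ρ => ind (¬ P a ρ)) ≤ e) :
    Ex (wq q) (fun ρ => ind (¬ ∀ a ∈ 𝓛, P a ρ)) ≤ 𝓛.length * e := by
  induction 𝓛 with
  | nil =>
    have : (fun ρ : Restr I => ind (¬ ∀ a ∈ ([] : List α), P a ρ)) = fun _ => 0 := by
      funext ρ
      apply ind_false
      simp
    rw [this, Ex_const (wq_sum q)]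
    simp
  | cons a 𝓛 ih =>
    have ih' := ih (fun b hb => h b (List.mem_cons_of_mem a hb))
    have ha := h a List.mem_cons_self
    have h2 : Ex (wq q) (fun ρ => ind (¬ ∀ b ∈ a :: 𝓛, P b ρ)) ≤
        Ex (wq q) (fun ρ => ind (¬ P a ρ) + ind (¬ ∀ b ∈ 𝓛, P b ρ)) := by
      apply Ex_mono (wq_nonneg h0 h1)
      intro ρ
      by_cases hp : P a ρ
      · rw [ind_false (not_not.2 hp), zero_add]
        apply ind_mono
        intro h3 h4
        apply h3
        intro b hb
        rcases List.mem_cons.1 hb with h5 | h5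
        · rw [h5]; exact hp
        · exact h4 b h5
      · rw [ind_true hp]
        have := ind_le_one (¬ ∀ b ∈ a :: 𝓛, P b ρ)
        have := ind_nonneg (¬ ∀ b ∈ 𝓛, P b ρ)
        linarith
    rw [Ex_add] at h2
    rw [List.length_cons]
    push_cast
    linarith

/-- Two stage restrictions. -/
lemma two_stage {q r : ℝ} (hq0 : 0 ≤ q) (hq1 : q ≤ 1) (hr0 : 0 ≤ r) (hr1 : r ≤ 1)
    {f : (I → Bool) → Bool} {K : ℕ} {good : Restr I → Prop} {e1 e2 : ℝ} (he2 : 0 ≤ e2)
    (h1 : Ex (wq q) (fun ρ => ind (¬ good ρ)) ≤ e1)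
    (h2 : ∀ ρ, good ρ → Ex (wq r) (fun τ => ind (¬ DTr K (rs (rs f ρ) τ))) ≤ e2) :
    Ex (wq (q * r)) (fun ρ => ind (¬ DTr K (rs f ρ))) ≤ e1 + e2 := by
  rw [wq_cmp]
  have h3 : ∀ ρ : Restr I, Ex (wq r) (fun τ : Restr I => ind (¬ DTr K (rs f (cmp ρ τ)))) ≤
      ind (¬ good ρ) + e2 := by
    intro ρ
    by_cases hg : good ρ
    · rw [ind_false (not_not.2 hg), zero_add]
      simp only [rs_cmp]
      exact h2 ρ hg
    · rw [ind_true hg]
      have : Ex (wq r) (fun τ : Restr I => ind (¬ DTr K (rs f (cmp ρ τ)))) ≤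
          Ex (wq r) (fun _ : Restr I => (1 : ℝ)) :=
        Ex_mono (wq_nonneg hr0 hr1) fun τ => ind_le_one _
      rw [Ex_const (wq_sum r)] at this
      linarith
  have h4 := Ex_mono (wq_nonneg hq0 hq1) h3
  rw [Ex_add, Ex_const (wq_sum q)] at h4
  linarith

end

/-- survival probability -/
noncomputable def QQ (K : ℕ) (δ : ℝ) : List (Bool × ℕ) → ℝ
  | [] => 1
  | (true, _) :: σ => QQ K δ σ * (1 / (24 * K))
  | (false, ℓ) :: σ => QQ K δ σ * (δ * (1 / 2) ^ ((ℓ + 1) / 2))

/-- error -/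
noncomputable def EE (e : ℝ) : List (Bool × ℕ) → ℝ
  | [] => 0
  | (_, ℓ) :: σ => 2 ^ ℓ * EE e σ + e

lemma EE_nonneg {e : ℝ} (he : 0 ≤ e) : ∀ σ, 0 ≤ EE e σ
  | [] => le_refl _
  | (_, ℓ) :: σ => by
      have := EE_nonneg he σ
      unfold EE
      positivity

lemma QQ_pos {K : ℕ} (hK : 1 ≤ K) {δ : ℝ} (hδ : 0 < δ) : ∀ σ, 0 < QQ K δ σ
  | [] => by unfold QQ; norm_num
  | (true, ℓ) :: σ => by
      have := QQ_pos hK hδ σ
      have hK' : (0 : ℝ) < K := by exact_mod_cast hK
      unfold QQ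
      positivity
  | (false, ℓ) :: σ => by
      have := QQ_pos hK hδ σ
      unfold QQ
      positivity

lemma QQ_le {K : ℕ} (hK : 1 ≤ K) {δ : ℝ} (hδ : 0 < δ) (hδ1 : δ ≤ 1) : ∀ σ, QQ K δ σ ≤ 1
  | [] => by unfold QQ; norm_num
  | (true, ℓ) :: σ => by
      have h1 := QQ_le hK hδ hδ1 σ
      have h2 := QQ_pos hK hδ σ
      have hK' : (1 : ℝ) ≤ K := by exact_mod_cast hK
      have h3 : 1 / (24 * (K : ℝ)) ≤ 1 := by
        rw [div_le_one (by positivity)]
        linarith
      unfold QQ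
      have h4 : 0 ≤ 1 / (24 * (K : ℝ)) := by positivity
      nlinarith
  | (false, ℓ) :: σ => by
      have h1 := QQ_le hK hδ hδ1 σ
      have h2 := QQ_pos hK hδ σ
      have h3 : ((1 : ℝ) / 2) ^ ((ℓ + 1) / 2) ≤ 1 := pow_le_one₀ (by norm_num) (by norm_num)
      have h5 : (0 : ℝ) ≤ (1 / 2) ^ ((ℓ + 1) / 2) := by positivity
      have h4 : δ * (1 / 2) ^ ((ℓ + 1) / 2) ≤ 1 := by nlinarith
      have h6 : 0 ≤ δ * (1 / 2) ^ ((ℓ + 1) / 2) := by positivity
      unfold QQ
      nlinarith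

lemma free_pow (ℓ : ℕ) : 4096 * 2 ^ ℓ ≤ 4 ^ (6 + (ℓ + 1) / 2) := by
  have h1 : (4 : ℕ) ^ (6 + (ℓ + 1) / 2) = 4096 * 2 ^ (2 * ((ℓ + 1) / 2)) := by
    rw [pow_add, pow_mul]
    norm_num
  rw [h1]
  apply Nat.mul_le_mul_left
  apply Nat.pow_le_pow_right (by norm_num)
  omega

/-- The main induction. -/
theorem restrict {K t : ℕ} (hK : 1 ≤ K) (htK : t * 4 ^ t ≤ K) {δ e : ℝ} (hδ : 0 < δ)
    (hδ1 : 2048 * K * δ ≤ 1) (he1 : (1 / 2) ^ K ≤ e) (he2 : 5 * (2048 * K * δ) ^ t ≤ e) :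
    ∀ (σ : List (Bool × ℕ)) (F : Fm n), Fits σ F →
      Ex (wq (QQ K δ σ)) (fun ρ => ind (¬ DTr K (rs (ef F) ρ))) ≤ EE e σ := by
  have hK0 : (0 : ℝ) < K := by exact_mod_cast hK
  have hK1 : (1 : ℝ) ≤ K := by exact_mod_cast hK
  have he0 : 0 ≤ e := le_trans (by positivity) he1
  have hδle : δ ≤ 1 := by nlinarith
  intro σ
  induction σ with
  | nil =>
    rintro F ⟨i, b, rfl⟩
    have : (fun ρ : Restr (Fin n) => ind (¬ DTr K (rs (ef (Fm.lit i b)) ρ))) = fun _ => 0 := by
      funext ρ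
      apply ind_false
      rw [not_not]
      apply DTr.rs
      apply DTr.mono _ hK
      apply DTr.of_junta
      refine ⟨{i}, by simp, fun x y hxy => ?_⟩
      show decide (x i = b) = decide (y i = b)
      rw [hxy i (Finset.mem_singleton_self i)]
    rw [this, Ex_const (wq_sum _)]
    exact le_refl _
  | cons a σ ih =>
    intro F hF
    have hq0 := (QQ_pos hK hδ σ)
    have hq1 := QQ_le hK hδ hδle σ
    have hEE := EE_nonneg he0 σ
    obtain ⟨h, ℓ⟩ := a
    cases h
    · -- free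
      obtain ⟨𝓛, hlen, hP, hA⟩ := layers_list K ℓ F hF
      have hu := union_list hq0.le hq1 (fun G ρ => DTr K (rs (ef G) ρ)) (e := EE e σ) 𝓛
        (fun G hG => ih G (hP G hG))
      set r : ℝ := δ * (1 / 2) ^ ((ℓ + 1) / 2) with hr
      have hr0 : 0 < r := by positivity
      have hr1 : r ≤ 1 := by
        have h3 : ((1 : ℝ) / 2) ^ ((ℓ + 1) / 2) ≤ 1 := pow_le_one₀ (by norm_num) (by norm_num)
        nlinarith [hδ]
      have h2 : ∀ ρ : Restr (Fin n), (∀ G ∈ 𝓛, DTr K (rs (ef G) ρ)) →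
          Ex (wq r) (fun τ => ind (¬ DTr K (rs (rs (ef F) ρ) τ))) ≤ e := by
        intro ρ hρ
        have hadv := (hA ρ hρ).1
        have hcomp : 32 * (K : ℝ) * 2 ^ (6 + (ℓ + 1) / 2) * r = 2048 * K * δ := by
          rw [hr, pow_add]
          have : (2 : ℝ) ^ ((ℓ + 1) / 2) * (1 / 2) ^ ((ℓ + 1) / 2) = 1 := by
            rw [← mul_pow]; norm_num
          calc 32 * (K : ℝ) * (2 ^ 6 * 2 ^ ((ℓ + 1) / 2)) * (δ * (1 / 2) ^ ((ℓ + 1) / 2))
              = 2048 * K * δ * (2 ^ ((ℓ + 1) / 2) * (1 / 2) ^ ((ℓ + 1) / 2)) := by ring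
            _ = 2048 * K * δ := by rw [this, mul_one]
        have hsh := hadv.shrink (t := t) hK Nat.one_le_two_pow (free_pow ℓ) hr0
          (by rw [hcomp]; exact hδ1)
        rw [hcomp] at hsh
        refine le_trans (Ex_mono (wq_nonneg hr0.le hr1) fun τ => ?_) (hsh.trans he2)
        by_cases hJ : Junta (t * 4 ^ t) (rs (rs (ef F) ρ) τ)
        · rw [if_neg (not_not.2 hJ), ind_false]
          rw [not_not]
          exact (DTr.of_junta hJ).mono htK
        · rw [if_pos hJ]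
          exact ind_le_one _
      have h3 := two_stage hq0.le hq1 hr0.le hr1 he0 hu h2
      refine h3.trans ?_
      show 𝓛.length * EE e σ + e ≤ 2 ^ ℓ * EE e σ + e
      have : (𝓛.length : ℝ) ≤ 2 ^ ℓ := by exact_mod_cast hlen
      nlinarith
    · -- homogeneous
      obtain ⟨ty, hF⟩ := hF
      obtain ⟨𝓛, hlen, hP, hA⟩ := layers_list K ℓ F hF
      have hu := union_list hq0.le hq1 (fun G ρ => DTr K (rs (ef G) ρ)) (e := EE e σ) 𝓛
        (fun G hG => ih G (hP G hG))
      set r : ℝ := 1 / (24 * K) with hr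
      have hr0 : 0 < r := by positivity
      have hr3 : r ≤ 1 / 3 := by
        rw [hr, div_le_div_iff₀ (by positivity) (by norm_num)]
        linarith
      have h2 : ∀ ρ : Restr (Fin n), (∀ G ∈ 𝓛, DTr K (rs (ef G) ρ)) →
          Ex (wq r) (fun τ => ind (¬ DTr K (rs (rs (ef F) ρ) τ))) ≤ e := by
        intro ρ hρ
        have hcert := (hA ρ hρ).2 ty rfl
        have hsw := switch (k := K) hK hr0.le hr3 hcert
        have h12 : 12 * (K : ℝ) * r = 1 / 2 := by rw [hr]; field_simp; norm_num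
        rw [h12] at hsw
        refine le_trans (Ex_mono (wq_nonneg hr0.le (by linarith)) fun τ => ?_)
          (hsw.trans (le_trans ?_ he1))
        · by_cases hJ : DTr K (rs (rs (ef F) ρ) τ)
          · rw [if_neg (not_not.2 hJ), ind_false (not_not.2 hJ)]
          · rw [if_pos hJ]
            exact ind_le_one _
        · exact pow_le_pow_of_le_one (by norm_num) (by norm_num) (by omega)
      have h3 := two_stage hq0.le hq1 hr0.le (by linarith) he0 hu h2
      refine h3.trans ?_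
      show 𝓛.length * EE e σ + e ≤ 2 ^ ℓ * EE e σ + e
      have : (𝓛.length : ℝ) ≤ 2 ^ ℓ := by exact_mod_cast hlen
      nlinarith

end Pool.Agent.H676
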