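import Mathlib
import Pool.Agent.H676.Wind

/-! Parity against formulas with homogeneous and free layers: the finite inequality. -/

namespace Pool.Agent.H676

open Finset H568R2

set_option linter.unusedSectionVars false

section
variable {I : Type*} [Fintype I] [DecidableEq I]

/-- number of stars -/
def nst (ρ : Restr I) : ℕ := (univ.filter (fun i => ρ i = none)).card

lemma Ex_half (q : ℝ) : Ex (wq q) (fun ρ : Restr I => (1 / 2 : ℝ) ^ nst ρ) =
    (1 - q / 2) ^ Fintype.card I := by
  unfold Ex
  have h1 : ∀ ρ : I → Option Bool, (∏ i, wq q (ρ i)) * (1 / 2 : ℝ) ^ nst ρ =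
      ∏ i, (wq q (ρ i) * (if ρ i = none then 1 / 2 else 1)) := by
    intro ρ
    rw [Finset.prod_mul_distrib]
    congr 1
    unfold nst
    rw [Finset.prod_ite]
    simp
  rw [Finset.sum_congr rfl fun ρ _ => h1 ρ]
  rw [sum_prodO (fun _ o => wq q o * (if o = none then 1 / 2 else 1))]
  rw [Finset.prod_const, Finset.card_univ]
  congr 1
  rw [Fintype.sum_option, Fintype.sum_bool]
  simp [wq]
  ring

lemma few_stars {q : ℝ} (h0 : 0 ≤ q) (h1 : q ≤ 1) (K : ℕ) :
    Ex (wq q) (fun ρ : Restr I => ind (nst ρ ≤ K)) ≤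
      2 ^ K * Real.exp (-(q * Fintype.card I / 2)) := by
  have h2 : Ex (wq q) (fun ρ : Restr I => ind (nst ρ ≤ K)) ≤
      Ex (wq q) (fun ρ : Restr I => 2 ^ K * (1 / 2 : ℝ) ^ nst ρ) := by
    apply Ex_mono (wq_nonneg h0 h1)
    intro ρ
    by_cases h : nst ρ ≤ K
    · rw [ind_true h]
      have h3 : (2 : ℝ) ^ K * (1 / 2) ^ K = 1 := by rw [← mul_pow]; norm_num
      refine le_trans (le_of_eq h3.symm) ?_
      apply mul_le_mul_of_nonneg_left _ (by positivity)
      exact pow_le_pow_of_le_one (by norm_num) (by norm_num) h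
    · rw [ind_false h]
      positivity
  refine h2.trans ?_
  rw [Ex_smul, Ex_half]
  apply mul_le_mul_of_nonneg_left _ (by positivity)
  have h3 : 1 - q / 2 ≤ Real.exp (-(q / 2)) := by
    have := Real.add_one_le_exp (-(q / 2))
    linarith
  calc (1 - q / 2) ^ Fintype.card I ≤ (Real.exp (-(q / 2))) ^ Fintype.card I :=
        pow_le_pow_left₀ (by linarith) h3 _
    _ = Real.exp (-(q * Fintype.card I / 2)) := by
        rw [← Real.exp_nat_mul]
        congr 1
        ring

end

variable {n : ℕ}

lemma par_flip (x : Fin n → Bool) (i : Fin n) : par (Function.update x i (!x i)) = !par x := by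
  unfold par
  have hset : ∀ y : Fin n → Bool, univ.filter (fun j => y j = true) =
      if y i = true then insert i ((univ.erase i).filter (fun j => y j = true))
      else (univ.erase i).filter (fun j => y j = true) := by
    intro y
    ext j
    by_cases hj : j = i
    · subst hj
      by_cases hy : y j = true <;> simp [hy]
    · by_cases hy : y i = true <;> simp [hy, hj]
  have hni : ∀ y : Fin n → Bool, i ∉ (univ.erase i).filter (fun j => y j = true) := by
    intro y; simp
  have hcard : ∀ y : Fin n → Bool, (univ.filter (fun j => y j = true)).card =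
      (if y i = true then 1 else 0) + ((univ.erase i).filter (fun j => y j = true)).card := by
    intro y
    rw [hset y]
    split_ifs
    · rw [Finset.card_insert_of_notMem (hni y)]; ring
    · ring
  have hrest : (univ.erase i).filter (fun j => Function.update x i (!x i) j = true) =
      (univ.erase i).filter (fun j => x j = true) := by
    apply Finset.filter_congr
    intro j hj
    rw [Function.update_of_ne (Finset.ne_of_mem_erase hj)]
  rw [hcard, hcard x, hrest, Function.update_self]
  set c := ((univ.erase i).filter (fun j => x j = true)).card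
  cases x i
  · simp only [Bool.not_false, if_true, Bool.false_eq_true, if_false, zero_add]
    rw [← decide_not, decide_eq_decide, add_comm 1 c, Nat.odd_add_one]
  · simp only [Bool.not_true, if_true, Bool.false_eq_true, if_false, zero_add]
    rw [← decide_not, decide_eq_decide, add_comm 1 c, Nat.odd_add_one, not_not]

lemma par_dtr {K : ℕ} {ρ : Restr (Fin n)} (h : DTr K (rs par ρ)) : nst ρ ≤ K := by
  by_contra hcon
  push Not at hcon
  set x : Fin n → Bool := fun _ => false
  obtain ⟨A, hA, hy⟩ := h.cert (rs par ρ x) x rfl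
  have : ∃ i ∈ univ.filter (fun i => ρ i = none), i ∉ A := by
    by_contra h2
    push Not at h2
    have : univ.filter (fun i => ρ i = none) ⊆ A := h2
    have := Finset.card_le_card this
    unfold nst at hcon
    omega
  obtain ⟨i, hi, hiA⟩ := this
  have hi' : ρ i = none := (Finset.mem_filter.1 hi).2
  have h3 := hy (Function.update x i (!x i)) (fun j hj => by
    rw [Function.update_of_ne]
    intro hji
    exact hiA (hji ▸ hj))
  have h4 : ov ρ (Function.update x i (!x i)) =
      Function.update (ov ρ x) i (!(ov ρ x i)) := by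
    funext j
    by_cases hj : j = i
    · subst hj
      simp [ov, hi']
    · simp [ov, Function.update_of_ne hj]
  unfold rs at h3
  rw [h4, par_flip] at h3
  cases hp : par (ov ρ x) <;> rw [hp] at h3 <;> simp at h3

/-- The finite inequality. -/
theorem par_lower {K t : ℕ} (hK : 1 ≤ K) (htK : t * 4 ^ t ≤ K) {δ e : ℝ} (hδ : 0 < δ)
    (hδ1 : 2048 * K * δ ≤ 1) (he1 : (1 / 2) ^ K ≤ e) (he2 : 5 * (2048 * K * δ) ^ t ≤ e)
    (σ : List (Bool × ℕ)) (h1 : EE e σ < 1 / 2)
    (h2 : 2 ^ K * Real.exp (-(QQ K δ σ * n / 2)) ≤ 1 / 2) (F : Fm n) (hF : Fits σ F) :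
    ∃ x, F.eval x ≠ par x := by
  by_contra hcon
  push Not at hcon
  have hef : ef F = par := funext hcon
  have hK1 : (1 : ℝ) ≤ K := by exact_mod_cast hK
  have hδle : δ ≤ 1 := by nlinarith
  have hq0 := (QQ_pos hK hδ σ)
  have hq1 := QQ_le hK hδ hδle σ
  have h3 := restrict hK htK hδ hδ1 he1 he2 σ F hF
  rw [hef] at h3
  have h4 := few_stars (I := Fin n) hq0.le hq1 K
  rw [Fintype.card_fin] at h4
  have h5 : (1 : ℝ) ≤ Ex (wq (QQ K δ σ)) (fun ρ : Restr (Fin n) => ind (¬ DTr K (rs par ρ)) +
      ind (nst ρ ≤ K)) := by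
    have h6 := Ex_const (I := Fin n) (wq_sum (QQ K δ σ)) (1 : ℝ)
    rw [← h6]
    apply Ex_mono (wq_nonneg hq0.le hq1)
    intro ρ
    by_cases hd : DTr K (rs par ρ)
    · rw [ind_true (par_dtr hd)]
      have := ind_nonneg (¬ DTr K (rs par ρ))
      linarith
    · rw [ind_true hd]
      have := ind_nonneg (nst ρ ≤ K)
      linarith
  rw [Ex_add] at h5
  linarith

end Pool.Agent.H676
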