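import Mathlib
import Pool.Agent.H676.Parity

/-! Asymptotics. -/

namespace Pool.Agent.H676

open Finset Filter

lemma poly_le_exp (a c d : ℝ) (ha : 0 ≤ a) (hc : 0 ≤ c) (hd : 0 < d) (t : ℕ) :
    ∀ᶠ y : ℝ in atTop, c * (a * y) ^ t ≤ 2 ^ (d * y) := by
  have hl : 0 < Real.log 2 := Real.log_pos (by norm_num)
  have hdl : 0 < d * Real.log 2 := by positivity
  have h1 := Real.tendsto_pow_mul_exp_neg_atTop_nhds_zero t
  have h2 : Tendsto (fun y : ℝ => (d * Real.log 2) * y) atTop atTop :=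
    Tendsto.const_mul_atTop hdl tendsto_id
  have h3 := h1.comp h2
  set B : ℝ := c * (a / (d * Real.log 2)) ^ t + 1 with hB
  have hB0 : 0 < B := by positivity
  have h4 : ∀ᶠ y : ℝ in atTop, ((d * Real.log 2) * y) ^ t * Real.exp (-((d * Real.log 2) * y)) <
      1 / B := h3.eventually_lt_const (by positivity)
  filter_upwards [h4, eventually_ge_atTop (0 : ℝ)] with y hy hy0
  have h5 : (2 : ℝ) ^ (d * y) = Real.exp ((d * Real.log 2) * y) := by
    rw [Real.rpow_def_of_pos (by norm_num)]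
    congr 1
    ring
  rw [h5]
  have h6 : c * (a * y) ^ t = c * (a / (d * Real.log 2)) ^ t * ((d * Real.log 2) * y) ^ t := by
    rw [mul_assoc, ← mul_pow]
    congr 2
    field_simp
  rw [h6]
  rw [Real.exp_neg, ← div_eq_mul_inv, div_lt_div_iff₀ (Real.exp_pos _) hB0, one_mul] at hy
  have h7 : 0 ≤ ((d * Real.log 2) * y) ^ t := by positivity
  nlinarith

lemma EE_le {e : ℝ} (he : 0 ≤ e) : ∀ σ : List (Bool × ℕ),
    EE e σ ≤ σ.length * (2 ^ (lay true σ + lay false σ) * e)
  | [] => by simp [EE]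
  | (h, ℓ) :: σ => by
      have ih := EE_le he σ
      have hlay : lay true ((h, ℓ) :: σ) + lay false ((h, ℓ) :: σ) =
          ℓ + (lay true σ + lay false σ) := by
        cases h <;> simp [lay, List.filter_cons] <;> ring
      rw [hlay, List.length_cons, pow_add]
      unfold EE
      push_cast
      have h1 : (2 : ℝ) ^ ℓ * EE e σ ≤ 2 ^ ℓ * (σ.length * (2 ^ (lay true σ + lay false σ) * e)) :=
        mul_le_mul_of_nonneg_left ih (by positivity)
      have h2 : e ≤ 2 ^ ℓ * 2 ^ (lay true σ + lay false σ) * e := by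
        have a1 : (1 : ℝ) ≤ 2 ^ ℓ := one_le_pow₀ (by norm_num)
        have a2 : (1 : ℝ) ≤ 2 ^ (lay true σ + lay false σ) := one_le_pow₀ (by norm_num)
        have a3 : (1 : ℝ) ≤ 2 ^ ℓ * 2 ^ (lay true σ + lay false σ) := by nlinarith
        nlinarith
      calc 2 ^ ℓ * EE e σ + e ≤ 2 ^ ℓ * (σ.length * (2 ^ (lay true σ + lay false σ) * e)) +
            2 ^ ℓ * 2 ^ (lay true σ + lay false σ) * e := by linarith
        _ = _ := by ring

lemma QQ_eq {K : ℕ} {δ : ℝ} : ∀ σ : List (Bool × ℕ), ∃ S : ℕ,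
    2 * S ≤ lay false σ + blk false σ ∧
    QQ K δ σ = (1 / (24 * K)) ^ blk true σ * δ ^ blk false σ * (1 / 2) ^ S
  | [] => ⟨0, by simp, by simp [QQ, blk]⟩
  | (true, ℓ) :: σ => by
      obtain ⟨S, h1, h2⟩ := QQ_eq σ
      refine ⟨S, ?_, ?_⟩
      · simpa [lay, blk, List.filter_cons] using h1
      · have h3 : blk true ((true, ℓ) :: σ) = blk true σ + 1 := by simp [blk, List.filter_cons]
        have h4 : blk false ((true, ℓ) :: σ) = blk false σ := by simp [blk, List.filter_cons]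
        unfold QQ
        rw [h2, h3, h4, pow_succ]
        ring
  | (false, ℓ) :: σ => by
      obtain ⟨S, h1, h2⟩ := QQ_eq σ
      have h3 : blk false ((false, ℓ) :: σ) = blk false σ + 1 := by simp [blk, List.filter_cons]
      have h4 : blk true ((false, ℓ) :: σ) = blk true σ := by simp [blk, List.filter_cons]
      have h5 : lay false ((false, ℓ) :: σ) = ℓ + lay false σ := by simp [lay, List.filter_cons]
      refine ⟨S + (ℓ + 1) / 2, ?_, ?_⟩
      · rw [h3, h5]; omega
      · unfold QQ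
        rw [h2, h3, h4, pow_succ, pow_add]
        ring

lemma len_eq (σ : List (Bool × ℕ)) : σ.length = blk true σ + blk false σ := by
  induction σ with
  | nil => rfl
  | cons a σ ih =>
    obtain ⟨h, ℓ⟩ := a
    cases h <;> simp [blk, List.filter_cons] at ih ⊢ <;> omega

/-- Parity needs almost `2 log n` free layers. -/
theorem parity_free_layers (C W : ℕ) (ε : ℝ) (hε : 0 < ε) : ∃ κ : ℝ, 0 < κ ∧ ∃ N : ℕ, ∀ n ≥ N,
    ∀ σ : List (Bool × ℕ), ((lay true σ + lay false σ : ℕ) : ℝ) ≤ C * Real.logb 2 n →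
      blk false σ ≤ W →
      (blk true σ : ℝ) ≤ κ * Real.logb 2 n / Real.logb 2 (Real.logb 2 n) →
      (lay false σ : ℝ) ≤ (2 - ε) * Real.logb 2 n →
      ∀ F : Fm n, Fits σ F → ∃ x, F.eval x ≠ par x := by
  set ε1 : ℝ := ε / (8 * (W + 1)) with hε1
  have hε10 : 0 < ε1 := by positivity
  obtain ⟨t, ht⟩ := exists_nat_ge ((C + 3) / ε1)
  have ht' : (C : ℝ) + 3 ≤ ε1 * t := by
    rw [div_le_iff₀ hε10] at ht
    linarith
  refine ⟨ε / 16, by positivity, ?_⟩
  have E2 := poly_le_exp 1 4 1 (by norm_num) (by norm_num) (by norm_num) 1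
  have E3 := poly_le_exp (2048 * (C + 3)) 5 2 (by positivity) (by norm_num) (by norm_num) t
  have E4 := poly_le_exp (2048 * (C + 3)) 1 ε1 (by positivity) (by norm_num) hε10 1
  have E7 := poly_le_exp (2 * 2 ^ (W : ℝ) * (C + 4)) 1 (ε / 4) (by positivity) (by norm_num)
    (by positivity) 1
  have hlog : Tendsto (fun n : ℕ => Real.logb 2 n) atTop atTop :=
    (Real.tendsto_logb_atTop (by norm_num)).comp tendsto_natCast_atTop_atTop
  have hev : ∀ᶠ n : ℕ in atTop, 1 ≤ n ∧
      (let y := Real.logb 2 n; 4 * (1 * y) ^ 1 ≤ (2 : ℝ) ^ (1 * y) ∧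
      5 * (2048 * (C + 3) * y) ^ t ≤ (2 : ℝ) ^ (2 * y) ∧
      1 * (2048 * (C + 3) * y) ^ 1 ≤ (2 : ℝ) ^ (ε1 * y) ∧
      1 * (2 * 2 ^ (W : ℝ) * (C + 4) * y) ^ 1 ≤ (2 : ℝ) ^ (ε / 4 * y) ∧
      (t * 4 ^ t : ℕ) ≤ y ∧ 24 * (C + 3) ≤ y ∧ 2 * W ≤ y ∧ 4 ≤ y ∧ 2 ^ (2 * ε) ≤ y) :=
    (eventually_ge_atTop 1).and ((hlog.eventually E2).and ((hlog.eventually E3).and
      ((hlog.eventually E4).and ((hlog.eventually E7).and
      ((hlog.eventually (eventually_ge_atTop _)).and ((hlog.eventually (eventually_ge_atTop _)).and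
      ((hlog.eventually (eventually_ge_atTop _)).and ((hlog.eventually (eventually_ge_atTop _)).and
      (hlog.eventually (eventually_ge_atTop _))))))))))
  obtain ⟨N, hN⟩ := eventually_atTop.1 hev
  refine ⟨N, fun n hn σ hdepth hW hblk hfree F hF => ?_⟩
  obtain ⟨hn1, e2, e3, e4, e7, e5, e6, e8, e9, e10⟩ := hN n hn
  set y := Real.logb 2 n with hy
  have hn0 : (0 : ℝ) < n := by exact_mod_cast hn1
  have h2y : (2 : ℝ) ^ y = n := Real.rpow_logb (by norm_num) (by norm_num) hn0
  have hy0 : 0 < y := by linarith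
  simp only [one_mul, pow_one] at e2 e4 e7
  set K : ℕ := ⌈(C + 1) * y⌉₊ + 1 with hK
  have hK1 : 1 ≤ K := by omega
  have hKlow : (C + 1) * y ≤ K := by
    have := Nat.le_ceil ((C + 1) * y)
    rw [hK]; push_cast; linarith
  have hKy : y ≤ K := by
    have : y ≤ (C + 1) * y := by nlinarith [(Nat.cast_nonneg C : (0:ℝ) ≤ C)]
    linarith
  have hKup : (K : ℝ) ≤ (C + 3) * y := by
    have := Nat.ceil_lt_add_one (show 0 ≤ (C + 1) * y by positivity)
    rw [hK]; push_cast; nlinarith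
  have hKpos : (0 : ℝ) < K := by exact_mod_cast hK1
  set δ : ℝ := 2 ^ (-(ε1 * y)) with hδ
  have hδ0 : 0 < δ := by positivity
  set e : ℝ := 2 ^ (-((C + 1) * y)) with he
  have he0 : 0 < e := by positivity
  have htK : t * 4 ^ t ≤ K := by
    have : ((t * 4 ^ t : ℕ) : ℝ) ≤ K := e5.trans hKy
    exact_mod_cast this
  have hprod : 2048 * (K : ℝ) * δ ≤ 2048 * (C + 3) * y * δ := by
    apply mul_le_mul_of_nonneg_right _ hδ0.le
    nlinarith
  have hδ1 : 2048 * K * δ ≤ 1 := by
    refine hprod.trans ?_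
    have : (2 : ℝ) ^ (ε1 * y) * δ = 1 := by
      rw [hδ, ← Real.rpow_add (by norm_num)]
      simp
    calc 2048 * (C + 3) * y * δ ≤ 2 ^ (ε1 * y) * δ := mul_le_mul_of_nonneg_right e4 hδ0.le
      _ = 1 := this
  have he1 : (1 / 2 : ℝ) ^ K ≤ e := by
    have : (1 / 2 : ℝ) ^ K = 2 ^ (-(K : ℝ)) := by
      rw [Real.rpow_neg (by norm_num), Real.rpow_natCast, one_div, inv_pow]
    rw [this, he]
    apply Real.rpow_le_rpow_of_exponent_le (by norm_num)
    linarith
  have he2 : 5 * (2048 * K * δ) ^ t ≤ e := by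
    have h1 : (2048 * K * δ) ^ t ≤ (2048 * (C + 3) * y * δ) ^ t :=
      pow_le_pow_left₀ (by positivity) hprod _
    have h2 : (2048 * (C + 3) * y * δ) ^ t = (2048 * (C + 3) * y) ^ t * 2 ^ (-(ε1 * t * y)) := by
      rw [mul_pow, hδ, ← Real.rpow_natCast, ← Real.rpow_natCast, ← Real.rpow_mul (by norm_num)]
      congr 2
      ring
    have h3 : (2 : ℝ) ^ (-(ε1 * t * y)) ≤ 2 ^ (-((C + 3) * y)) := by
      apply Real.rpow_le_rpow_of_exponent_le (by norm_num)
      nlinarith
    have h4 : (2 : ℝ) ^ (2 * y) * 2 ^ (-((C + 3) * y)) = e := by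
      rw [he, ← Real.rpow_add (by norm_num)]
      congr 1
      ring
    calc 5 * (2048 * K * δ) ^ t ≤ 5 * ((2048 * (C + 3) * y) ^ t * 2 ^ (-(ε1 * t * y))) := by
          rw [← h2]; linarith
      _ ≤ 5 * ((2048 * (C + 3) * y) ^ t * 2 ^ (-((C + 3) * y))) := by
          apply mul_le_mul_of_nonneg_left _ (by norm_num)
          exact mul_le_mul_of_nonneg_left h3 (by positivity)
      _ = (5 * (2048 * (C + 3) * y) ^ t) * 2 ^ (-((C + 3) * y)) := by ring
      _ ≤ 2 ^ (2 * y) * 2 ^ (-((C + 3) * y)) := mul_le_mul_of_nonneg_right e3 (by positivity)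
      _ = e := h4
  have hly : 0 < Real.logb 2 y := Real.logb_pos (by norm_num) (by linarith)
  have hblk2 : (blk true σ : ℝ) ≤ y / 2 := by
    refine hblk.trans ?_
    rw [div_le_iff₀ hly]
    have : 2 * ε ≤ Real.logb 2 y := by
      rw [Real.le_logb_iff_rpow_le (by norm_num) hy0]
      exact e10
    have h1 := mul_le_mul_of_nonneg_left this (show (0 : ℝ) ≤ y / 2 by positivity)
    have h2 : ε / 16 * y ≤ y / 2 * (2 * ε) := by
      have : 0 < ε * y := by positivity
      linarith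
    exact h2.trans h1
  have hlen : (σ.length : ℝ) ≤ y := by
    rw [len_eq]
    push_cast
    have : (blk false σ : ℝ) ≤ W := by exact_mod_cast hW
    linarith
  refine par_lower hK1 htK hδ0 hδ1 he1 he2 σ ?_ ?_ F hF
  · refine lt_of_le_of_lt (EE_le he0.le σ) ?_
    have h1 : (2 : ℝ) ^ (lay true σ + lay false σ) ≤ 2 ^ ((C : ℝ) * y) := by
      rw [← Real.rpow_natCast]
      exact Real.rpow_le_rpow_of_exponent_le (by norm_num) hdepth
    have h2 : (2 : ℝ) ^ ((C : ℝ) * y) * e = (2 ^ y)⁻¹ := by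
      rw [he, ← Real.rpow_add (by norm_num), ← Real.rpow_neg (by norm_num)]
      congr 1
      ring
    have h3 : (2 : ℝ) ^ (lay true σ + lay false σ) * e ≤ (2 ^ y)⁻¹ := by
      rw [← h2]
      exact mul_le_mul_of_nonneg_right h1 he0.le
    calc (σ.length : ℝ) * (2 ^ (lay true σ + lay false σ) * e) ≤ y * (2 ^ y)⁻¹ :=
          mul_le_mul hlen h3 (by positivity) hy0.le
      _ ≤ (2 ^ y / 4) * (2 ^ y)⁻¹ := by
          apply mul_le_mul_of_nonneg_right _ (by positivity)
          linarith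
      _ = 1 / 4 := by
          have : (2 : ℝ) ^ y ≠ 0 := by positivity
          field_simp
      _ < 1 / 2 := by norm_num
  · -- survival
    obtain ⟨S, hS1, hS2⟩ := QQ_eq (K := K) (δ := δ) σ
    have hQn : 2 * ((K : ℝ) + 1) ≤ QQ K δ σ * n := by
      rw [hS2, ← h2y]
      have a1 : (2 : ℝ) ^ (-(ε / 8 * y)) ≤ (1 / (24 * K)) ^ blk true σ := by
        have b1 : (24 : ℝ) * K ≤ y ^ 2 := by nlinarith
        have b2 : (1 / y ^ 2) ^ blk true σ ≤ (1 / (24 * (K : ℝ))) ^ blk true σ := by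
          apply pow_le_pow_left₀ (by positivity)
          exact one_div_le_one_div_of_le (by positivity) b1
        refine le_trans ?_ b2
        have b3 : y = 2 ^ (Real.logb 2 y) := (Real.rpow_logb (by norm_num) (by norm_num) hy0).symm
        have b4 : (1 / y ^ 2) ^ blk true σ = 2 ^ (-(2 * Real.logb 2 y * blk true σ)) := by
          have : 1 / y ^ 2 = 2 ^ (-(2 * Real.logb 2 y)) := by
            rw [Real.rpow_neg (by norm_num), one_div]
            congr 1
            rw [mul_comm, Real.rpow_mul (by norm_num), ← b3]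
            norm_cast
          rw [this, ← Real.rpow_natCast, ← Real.rpow_mul (by norm_num)]
          congr 1
          ring
        rw [b4]
        apply Real.rpow_le_rpow_of_exponent_le (by norm_num)
        have b5 : (blk true σ : ℝ) * Real.logb 2 y ≤ ε / 16 * y := by
          rw [le_div_iff₀ hly] at hblk
          exact hblk
        linarith
      have a2 : (2 : ℝ) ^ (-(ε / 8 * y)) ≤ δ ^ blk false σ := by
        rw [hδ, ← Real.rpow_natCast, ← Real.rpow_mul (by norm_num)]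
        apply Real.rpow_le_rpow_of_exponent_le (by norm_num)
        have b1 : (blk false σ : ℝ) ≤ W := by exact_mod_cast hW
        have b2 : ε1 * (W + 1) = ε / 8 := by rw [hε1]; field_simp
        have b3 : ε1 * y * blk false σ ≤ ε1 * y * (W + 1) :=
          mul_le_mul_of_nonneg_left (by linarith) (by positivity)
        have b4 : ε1 * y * (W + 1) = ε / 8 * y := by rw [← b2]; ring
        linarith
      have a3 : (2 : ℝ) ^ (-((1 - ε / 2) * y + W)) ≤ (1 / 2) ^ S := by
        have : (1 / 2 : ℝ) ^ S = 2 ^ (-(S : ℝ)) := by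
          rw [Real.rpow_neg (by norm_num), Real.rpow_natCast, one_div, inv_pow]
        rw [this]
        apply Real.rpow_le_rpow_of_exponent_le (by norm_num)
        have b1 : (2 : ℝ) * S ≤ lay false σ + blk false σ := by exact_mod_cast hS1
        have b2 : (blk false σ : ℝ) ≤ W := by exact_mod_cast hW
        have b3 : (0 : ℝ) ≤ W := Nat.cast_nonneg W
        linarith
      have a4 : (2 : ℝ) ^ (-(ε / 8 * y)) * 2 ^ (-(ε / 8 * y)) * 2 ^ (-((1 - ε / 2) * y + W)) * 2 ^ y =
          2 ^ (ε / 4 * y) * 2 ^ (-(W : ℝ)) := by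
        rw [← Real.rpow_add (by norm_num), ← Real.rpow_add (by norm_num),
          ← Real.rpow_add (by norm_num), ← Real.rpow_add (by norm_num)]
        congr 1
        ring
      have a5 : 2 * ((K : ℝ) + 1) ≤ 2 ^ (ε / 4 * y) * 2 ^ (-(W : ℝ)) := by
        have b1 : (2 : ℝ) ^ (W : ℝ) * 2 ^ (-(W : ℝ)) = 1 := by
          rw [← Real.rpow_add (by norm_num)]; simp
        have b2 : (0 : ℝ) < 2 ^ (-(W : ℝ)) := by positivity
        calc 2 * ((K : ℝ) + 1) ≤ 2 * (C + 4) * y := by nlinarith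
          _ = (2 * 2 ^ (W : ℝ) * (C + 4) * y) * 2 ^ (-(W : ℝ)) := by
              calc 2 * (C + 4) * y = 2 * (C + 4) * y * (2 ^ (W : ℝ) * 2 ^ (-(W : ℝ))) := by
                    rw [b1, mul_one]
                _ = _ := by ring
          _ ≤ _ := mul_le_mul_of_nonneg_right e7 b2.le
      refine a5.trans ?_
      rw [← a4]
      apply mul_le_mul_of_nonneg_right _ (by positivity)
      apply mul_le_mul _ a3 (by positivity) (by positivity)
      exact mul_le_mul a1 a2 (by positivity) (by positivity)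
    have h1 : Real.exp (-(QQ K δ σ * n / 2)) ≤ Real.exp (-((K : ℝ) + 1)) := by
      apply Real.exp_le_exp.2
      linarith
    have h2 : (2 : ℝ) ^ K * Real.exp (-((K : ℝ) + 1)) ≤ 1 / 2 := by
      have h3 : Real.exp (-((K : ℝ) + 1)) = (Real.exp (-1)) ^ K * Real.exp (-1) := by
        rw [← Real.exp_nat_mul, ← Real.exp_add]
        congr 1
        ring
      rw [h3, ← mul_assoc, ← mul_pow]
      have h4 : Real.exp (-1) ≤ 1 / 2 := by
        rw [Real.exp_neg]
        have := Real.exp_one_gt_d9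
        rw [inv_le_comm₀ (Real.exp_pos _) (by norm_num)]
        norm_num
        linarith
      have h5 : (2 * Real.exp (-1)) ^ K ≤ 1 := pow_le_one₀ (by positivity) (by linarith)
      have h6 : 0 < Real.exp (-1) := Real.exp_pos _
      nlinarith
    calc 2 ^ K * Real.exp (-(QQ K δ σ * n / 2)) ≤ 2 ^ K * Real.exp (-((K : ℝ) + 1)) :=
          mul_le_mul_of_nonneg_left h1 (by positivity)
      _ ≤ 1 / 2 := h2

end Pool.Agent.H676
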